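import Pool.Agent.Helper68.LM2.Geo
import Pool.Agent.Helper68.LM.Asm

set_option autoImplicit false

open MeasureTheory Set Filter Topology
open scoped ENNReal RealInnerProductSpace

namespace Pool.Agent.Helper99.LM2

open Pool.Agent.Helper68.LM Pool.Agent.Helper68.LM2

theorem jensen_fin {α : Type*} [MeasurableSpace α] (μ : Measure α) {p : ℝ} (hp : 1 < p) {f : α → ℝ≥0∞}
    (hf : AEMeasurable f μ) : (∫⁻ x, f x ∂μ) ^ p ≤ (μ univ) ^ (p - 1) * ∫⁻ x, f x ^ p ∂μ := by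
  have hp0 : 0 < p := by linarith
  have hpq := Real.HolderConjugate.conjExponent hp
  have h1 := ENNReal.lintegral_mul_le_Lp_mul_Lq μ hpq hf (g := fun _ => 1) aemeasurable_const
  simp only [Pi.mul_apply, mul_one, ENNReal.one_rpow, lintegral_const, one_mul] at h1
  have h2 := ENNReal.rpow_le_rpow h1 hp0.le
  rw [ENNReal.mul_rpow_of_nonneg _ _ hp0.le, ← ENNReal.rpow_mul, ← ENNReal.rpow_mul,
    one_div_mul_cancel hp0.ne', ENNReal.rpow_one] at h2
  have h3 : 1 / p.conjExponent * p = p - 1 := by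
    unfold Real.conjExponent
    field_simp
  rw [h3] at h2
  rw [mul_comm]
  exact h2

/-- the function in the coordinates, translated by `σ` -/
noncomputable def Gs (g : Pl → ℝ) (u v : Pl) (σ : ℝ) : ℝ × ℝ → ℝ :=
  fun z => g (z.1 • u + (z.2 - σ) • v)

theorem meas_E2 (g : Pl → ℝ) (u v : Pl) (hg : Measurable g) (m : ℤ) :
    Measurable (fun w : ℝ × (ℝ × ℝ) => E2 m (Gs g u v w.1) w.2) := by
  have hcell : ∀ b : ℝ, MeasurableSet (cell m b) := by
    intro b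
    exact (measurable_id.div_const _).floor (measurableSet_singleton _)
  have h1 : (fun w : ℝ × (ℝ × ℝ) => E2 m (Gs g u v w.1) w.2) =
      fun w : ℝ × (ℝ × ℝ) => ((2 : ℝ) ^ m)⁻¹ * ∫ y : ℝ, (if ⌊y / (2 : ℝ) ^ m⌋ = ⌊w.2.2 / (2 : ℝ) ^ m⌋ then
        g (w.2.1 • u + (y - w.1) • v) else 0) := by
    funext w
    unfold E2 E1 Gs
    rw [← integral_indicator (hcell _)]
    congr 2
    funext y
    by_cases hy : ⌊y / (2 : ℝ) ^ m⌋ = ⌊w.2.2 / (2 : ℝ) ^ m⌋
    · rw [if_pos hy, indicator_of_mem (show y ∈ cell m w.2.2 from hy)]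
    · rw [if_neg hy, indicator_of_notMem (show y ∉ cell m w.2.2 from hy)]
  rw [h1]
  apply Measurable.const_mul
  apply StronglyMeasurable.measurable
  apply StronglyMeasurable.integral_prod_right' (f := fun q : (ℝ × (ℝ × ℝ)) × ℝ =>
    (if ⌊q.2 / (2 : ℝ) ^ m⌋ = ⌊q.1.2.2 / (2 : ℝ) ^ m⌋ then g (q.1.2.1 • u + (q.2 - q.1.1) • v) else 0))
  apply Measurable.stronglyMeasurable
  apply Measurable.ite
  · exact measurableSet_eq_fun (by fun_prop) (by fun_prop)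
  · apply hg.comp
    fun_prop
  · exact measurable_const

theorem meas_Vn (g : Pl → ℝ) (u v : Pl) (hg : Measurable g) (τ : ℕ → ℝ) (m₀ : ℕ) (k : ℤ) (n : ℕ) :
    Measurable (fun w : ℝ × (ℝ × ℝ) => Vn τ m₀ k n (Gs g u v w.1) w.2) := by
  have h1 := meas_E2 g u v hg (k - (m₀ : ℤ) - (n : ℤ) + 2)
  have : IsFiniteMeasure (rho τ m₀ n) := by
    unfold rho
    infer_instance
  unfold Vn Rh
  apply StronglyMeasurable.measurable
  apply StronglyMeasurable.integral_prod_right' (f := fun q : (ℝ × (ℝ × ℝ)) × ℝ =>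
    E2 (k - (m₀ : ℤ) - (n : ℤ) + 2) (Gs g u v q.1.1) (q.1.2.1 - (2 : ℝ) ^ k * q.2, q.1.2.2))
  apply Measurable.stronglyMeasurable
  exact h1.comp (by fun_prop : Measurable (fun q : (ℝ × (ℝ × ℝ)) × ℝ =>
    ((q.1.1, (q.1.2.1 - (2 : ℝ) ^ k * q.2, q.1.2.2)) : ℝ × (ℝ × ℝ))))

theorem Vn_nonneg (g : Pl → ℝ) (u v : Pl) (hg : ∀ x, 0 ≤ g x) (τ : ℕ → ℝ) (m₀ : ℕ) (k : ℤ) (n : ℕ) (σ : ℝ)
    (z : ℝ × ℝ) : 0 ≤ Vn τ m₀ k n (Gs g u v σ) z := by
  unfold Vn Rh E2 E1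
  apply integral_nonneg
  intro s
  apply mul_nonneg (by positivity)
  apply integral_nonneg
  intro y
  exact hg _

theorem BB_shift (g : Pl → ℝ) (hg : BB g) (v : Pl) (σ : ℝ) : BB (fun x => g (x - σ • v)) := by
  obtain ⟨hm, K, hK, hK2⟩ := hg
  refine ⟨hm.comp (by fun_prop), K + ‖σ • v‖, fun x => ?_, fun x hx => ?_⟩
  · have := hK (x - σ • v)
    have := norm_nonneg (σ • v)
    linarith
  · apply hK2
    have := norm_sub_norm_le x (σ • v)
    linarith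

theorem hLOWM (hDYT : StDYT) (hCO : StCO) (hLOWD : StLOWD) : StLOWM := by
  intro p P u v c φ m₀ τ hp hSide hLev
  have hp0 : 0 < p := by linarith
  obtain ⟨C₁, hC₁, h1⟩ := hLOWD
  set P' : ℝ × ℝ := (⟪P, u⟫, ⟪P, v⟫) with hP'
  obtain ⟨C₂, hC₂, h2⟩ := hDYT p (‖P'‖ + 1) m₀ hp (by positivity)
  obtain ⟨hu, hv, huv, -⟩ := id hSide
  obtain ⟨-, -, -, co4, co5, co6⟩ := hCO u v hu hv huv
  refine ⟨C₁ ^ p * C₂, by positivity, fun Nm g hg hg0 => ?_⟩
  -- the functions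
  set A : ℤ → Pl → ℝ≥0∞ := fun k x => ENNReal.ofReal (∑ n ∈ Finset.range Nm, Av (nu P u v φ τ n) ((2 : ℝ) ^ k)
        (Sm ((2 : ℝ) ^ (k - (m₀ : ℤ) - (n : ℤ))) g) x) with hA
  set W : Pl → ℝ → ℝ≥0∞ := fun x σ => ⨆ k : ℤ, ENNReal.ofReal (∑ n ∈ Finset.range Nm,
    Vn τ m₀ k n (Gs g u v σ) (⟪x, u⟫ - (2 : ℝ) ^ k * ⟪P, u⟫, ⟪x, v⟫ - (2 : ℝ) ^ k * ⟪P, v⟫ + σ)) with hW
  set B : ℝ≥0∞ := ENNReal.ofReal (C₂ * (1 + ∑ n ∈ Finset.range Nm, τ n ^ p)) *
          ∫⁻ x, ENNReal.ofReal (g x) ^ p with hB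
  have hVm : ∀ (k : ℤ) (n : ℕ), Measurable (fun q : Pl × ℝ => Vn τ m₀ k n (Gs g u v q.2)
      (⟪q.1, u⟫ - (2 : ℝ) ^ k * ⟪P, u⟫, ⟪q.1, v⟫ - (2 : ℝ) ^ k * ⟪P, v⟫ + q.2)) := by
    intro k n
    have h4 : Measurable (fun q : Pl × ℝ =>
      ((q.2, (⟪q.1, u⟫ - (2 : ℝ) ^ k * ⟪P, u⟫, ⟪q.1, v⟫ - (2 : ℝ) ^ k * ⟪P, v⟫ + q.2)) : ℝ × (ℝ × ℝ))) := by
      fun_prop
    have h5 := (meas_Vn g u v hg.1 τ m₀ k n).comp h4
    exact h5
  have hWm : Measurable (fun q : Pl × ℝ => W q.1 q.2) := by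
    apply Measurable.iSup
    intro k
    apply ENNReal.measurable_ofReal.comp
    exact Finset.measurable_sum _ (fun n _ => hVm k n)
  have hAm : ∀ k, Measurable (A k) := by
    intro k
    apply ENNReal.measurable_ofReal.comp
    apply Finset.measurable_sum
    intro n _
    have : IsFiniteMeasure (nu P u v φ τ n) := by
      unfold nu arcMeasure
      infer_instance
    have hS : Measurable (Sm ((2 : ℝ) ^ (k - (m₀ : ℤ) - (n : ℤ))) g) := (aBBC.2.1 g _ hg).1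
    unfold Av
    apply StronglyMeasurable.measurable
    apply StronglyMeasurable.integral_prod_right' (f := fun q : Pl × Pl =>
      Sm ((2 : ℝ) ^ (k - (m₀ : ℤ) - (n : ℤ))) g (q.1 - (2 : ℝ) ^ k • q.2))
    apply Measurable.stronglyMeasurable
    exact hS.comp (by fun_prop)
  -- step 1
  have step1 : ∀ (k M : ℤ) (x : Pl), k + 2 ≤ M → A k x ≤ ENNReal.ofReal (C₁ * ((2 : ℝ) ^ M)⁻¹) *
      ∫⁻ σ in Icc (0 : ℝ) ((2 : ℝ) ^ M), W x σ := by
    intro k M x hkM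
    have e1 : ∀ n, Measurable (fun σ : ℝ => Vn τ m₀ k n (Gs g u v σ)
      (⟪x, u⟫ - (2 : ℝ) ^ k * ⟪P, u⟫, ⟪x, v⟫ - (2 : ℝ) ^ k * ⟪P, v⟫ + σ)) := fun n => by
        have h4 : Measurable (fun σ : ℝ => ((x, σ) : Pl × ℝ)) := by fun_prop
        have h5 := (hVm k n).comp h4
        exact h5
    calc A k x ≤ ∑ n ∈ Finset.range Nm, ENNReal.ofReal (Av (nu P u v φ τ n) ((2 : ℝ) ^ k)
          (Sm ((2 : ℝ) ^ (k - (m₀ : ℤ) - (n : ℤ))) g) x) := by
          exact Finset.le_sum_of_subadditive ENNReal.ofReal ENNReal.ofReal_zero.le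
                (fun _ _ => ENNReal.ofReal_add_le) _ _
      _ ≤ ∑ n ∈ Finset.range Nm, ENNReal.ofReal (C₁ * ((2 : ℝ) ^ M)⁻¹) *
          ∫⁻ σ in Icc (0 : ℝ) ((2 : ℝ) ^ M), ENNReal.ofReal (Vn τ m₀ k n (Gs g u v σ)
            (⟪x, u⟫ - (2 : ℝ) ^ k * ⟪P, u⟫, ⟪x, v⟫ - (2 : ℝ) ^ k * ⟪P, v⟫ + σ)) := by
          apply Finset.sum_le_sum
          intro n _
          have h3 := h1 P u v c φ m₀ τ hSide hLev g hg hg0 n k M hkM x
          refine (ENNReal.ofReal_le_ofReal h3).trans ?_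
          rw [← mul_assoc, ENNReal.ofReal_mul (by positivity)]
          refine mul_le_mul' le_rfl ?_
          have h4 : ∀ σ, 0 ≤ Vn τ m₀ k n (Gs g u v σ)
            (⟪x, u⟫ - (2 : ℝ) ^ k * ⟪P, u⟫, ⟪x, v⟫ - (2 : ℝ) ^ k * ⟪P, v⟫ + σ) :=
            fun σ => Vn_nonneg g u v hg0 τ m₀ k n σ _
          have h5 := enorm_integral_le_lintegral_enorm (μ := volume.restrict (Icc (0 : ℝ) ((2 : ℝ) ^ M)))
            (fun σ : ℝ => Vn τ m₀ k n (Gs g u v σ)
            (⟪x, u⟫ - (2 : ℝ) ^ k * ⟪P, u⟫, ⟪x, v⟫ - (2 : ℝ) ^ k * ⟪P, v⟫ + σ))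
          rw [Real.enorm_eq_ofReal (integral_nonneg h4)] at h5
          refine h5.trans (le_of_eq ?_)
          apply lintegral_congr
          intro σ
          rw [Real.enorm_eq_ofReal (h4 σ)]
      _ = ENNReal.ofReal (C₁ * ((2 : ℝ) ^ M)⁻¹) * ∫⁻ σ in Icc (0 : ℝ) ((2 : ℝ) ^ M),
          ∑ n ∈ Finset.range Nm, ENNReal.ofReal (Vn τ m₀ k n (Gs g u v σ)
            (⟪x, u⟫ - (2 : ℝ) ^ k * ⟪P, u⟫, ⟪x, v⟫ - (2 : ℝ) ^ k * ⟪P, v⟫ + σ)) := by
          rw [lintegral_finsetSum _ (fun n _ => (e1 n).ennreal_ofReal), Finset.mul_sum]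
      _ ≤ _ := by
          refine mul_le_mul' le_rfl ?_
          apply lintegral_mono
          intro σ
          refine le_trans (le_of_eq (ENNReal.ofReal_sum_of_nonneg
            (fun n _ => Vn_nonneg g u v hg0 τ m₀ k n σ _)).symm) ?_
          exact le_iSup (fun k : ℤ => ENNReal.ofReal (∑ n ∈ Finset.range Nm,
            Vn τ m₀ k n (Gs g u v σ) (⟪x, u⟫ - (2 : ℝ) ^ k * ⟪P, u⟫, ⟪x, v⟫ - (2 : ℝ) ^ k * ⟪P, v⟫ + σ))) k
  -- step 4
  have step4 : ∀ σ : ℝ, ∫⁻ x, W x σ ^ p ≤ B := by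
    intro σ
    have hBR : BR (Gs g u v σ) := by
      have h3 := co4 _ (BB_shift g hg v σ)
      have h4 : (fun z : ℝ × ℝ => g (z.1 • u + z.2 • v - σ • v)) = Gs g u v σ := by
        funext z
        unfold Gs
        rw [sub_smul, add_sub_assoc]
      rw [← h4]
      exact h3
    set F0 : ℝ × ℝ → ℝ≥0∞ := fun z => (⨆ k : ℤ, ENNReal.ofReal (∑ n ∈ Finset.range Nm,
      Vn τ m₀ k n (Gs g u v σ) (z - (2 : ℝ) ^ k • P'))) ^ p with hF0
    have hF0m : Measurable F0 := by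
      apply Measurable.pow_const
      apply Measurable.iSup
      intro k
      apply ENNReal.measurable_ofReal.comp
      apply Finset.measurable_sum
      intro n _
      have h4 : Measurable (fun z : ℝ × ℝ => ((σ, z - (2 : ℝ) ^ k • P') : ℝ × (ℝ × ℝ))) := by fun_prop
      have h5 := (meas_Vn g u v hg.1 τ m₀ k n).comp h4
      exact h5
    have e1 : ∫⁻ x, W x σ ^ p = ∫⁻ x : Pl, (fun z => F0 (z + (0, σ))) (⟪x, u⟫, ⟪x, v⟫) := by
      apply lintegral_congr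
      intro x
      simp only [hF0, hW]
      congr 1
      apply iSup_congr
      intro k
      congr 1
      apply Finset.sum_congr rfl
      intro n _
      congr 1
      simp only [hP', Prod.mk_add_mk, Prod.smul_mk, Prod.mk_sub_mk, smul_eq_mul, Prod.mk.injEq]
      constructor <;> ring
    have h6 : Measurable (fun z : ℝ × ℝ => F0 (z + (0, σ))) := by
      have h4 : Measurable (fun z : ℝ × ℝ => z + (0, σ)) := by fun_prop
      exact hF0m.comp h4
    rw [e1, ← co6 _ h6, lintegral_add_right_eq_self (fun z => F0 z)]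
    have h3 := h2 τ hLev.1 Nm (Gs g u v σ) P' hBR (fun z => hg0 _) (by linarith)
    refine h3.trans (le_of_eq ?_)
    rw [hB]
    congr 1
    have e2 : ∀ z : ℝ × ℝ, ENNReal.ofReal (Gs g u v σ z) ^ p =
      (fun z : ℝ × ℝ => ENNReal.ofReal (g (z.1 • u + z.2 • v)) ^ p) (z - (0, σ)) := by
      intro z
      simp [Gs]
    rw [lintegral_congr e2, lintegral_sub_right_eq_self (fun z : ℝ × ℝ =>
      ENNReal.ofReal (g (z.1 • u + z.2 • v)) ^ p), ← co5 (fun x => ENNReal.ofReal (g x) ^ p)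
      (hg.1.ennreal_ofReal.pow_const p)]
  -- step 3
  have step3 : ∀ K : ℕ, ∫⁻ x, (⨆ k ∈ Finset.Icc (-(K : ℤ)) K, A k x) ^ p ≤
      ENNReal.ofReal (C₁ ^ p) * B := by
    intro K
    set M : ℤ := K + 2 with hM
    set T : ℝ := (2 : ℝ) ^ M with hT
    have hT0 : 0 < T := by positivity
    have e1 : ∀ x, (⨆ k ∈ Finset.Icc (-(K : ℤ)) K, A k x) ^ p ≤
        ENNReal.ofReal (C₁ * T⁻¹) ^ p * ((volume.restrict (Icc (0 : ℝ) T)) univ ^ (p - 1) *
          ∫⁻ σ in Icc (0 : ℝ) T, W x σ ^ p) := by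
      intro x
      have h3 : (⨆ k ∈ Finset.Icc (-(K : ℤ)) K, A k x) ≤
          ENNReal.ofReal (C₁ * T⁻¹) * ∫⁻ σ in Icc (0 : ℝ) T, W x σ := by
        apply iSup₂_le
        intro k hk
        rw [Finset.mem_Icc] at hk
        exact step1 k M x (by omega)
      refine (ENNReal.rpow_le_rpow h3 hp0.le).trans ?_
      rw [ENNReal.mul_rpow_of_nonneg _ _ hp0.le]
      refine mul_le_mul' le_rfl ?_
      apply jensen_fin _ hp
      have h4 : Measurable (fun σ : ℝ => ((x, σ) : Pl × ℝ)) := by fun_prop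
      have h5 := hWm.comp h4
      exact h5.aemeasurable
    have e2 : ∫⁻ x, ∫⁻ σ in Icc (0 : ℝ) T, W x σ ^ p ≤ ENNReal.ofReal T * B := by
      rw [lintegral_lintegral_swap (by
        apply Measurable.aemeasurable
        exact hWm.pow_const p)]
      calc ∫⁻ σ in Icc (0 : ℝ) T, ∫⁻ x, W x σ ^ p ≤ ∫⁻ σ in Icc (0 : ℝ) T, B :=
            lintegral_mono (fun σ => step4 σ)
        _ = ENNReal.ofReal T * B := by
            rw [lintegral_const, Measure.restrict_apply_univ, Real.volume_Icc, sub_zero, mul_comm]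
    calc ∫⁻ x, (⨆ k ∈ Finset.Icc (-(K : ℤ)) K, A k x) ^ p
        ≤ ∫⁻ x, ENNReal.ofReal (C₁ * T⁻¹) ^ p * ((volume.restrict (Icc (0 : ℝ) T)) univ ^ (p - 1) *
          ∫⁻ σ in Icc (0 : ℝ) T, W x σ ^ p) := lintegral_mono e1
      _ = ENNReal.ofReal (C₁ * T⁻¹) ^ p * (ENNReal.ofReal T ^ (p - 1) *
          ∫⁻ x, ∫⁻ σ in Icc (0 : ℝ) T, W x σ ^ p) := by
          have hm : Measurable (fun x => ∫⁻ σ in Icc (0 : ℝ) T, W x σ ^ p) :=
            Measurable.lintegral_prod_right' (f := fun q : Pl × ℝ => W q.1 q.2 ^ p) (hWm.pow_const p)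
          rw [Measure.restrict_apply_univ, Real.volume_Icc, sub_zero, lintegral_const_mul _ (hm.const_mul _),
            lintegral_const_mul _ hm]
      _ ≤ ENNReal.ofReal (C₁ * T⁻¹) ^ p * (ENNReal.ofReal T ^ (p - 1) * (ENNReal.ofReal T * B)) := by
          gcongr
      _ = ENNReal.ofReal (C₁ ^ p) * B := by
          rw [ENNReal.ofReal_rpow_of_nonneg (by positivity) hp0.le,
            ENNReal.ofReal_rpow_of_nonneg hT0.le (by linarith), ← mul_assoc (ENNReal.ofReal (T ^ (p - 1))),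
            ← ENNReal.ofReal_mul (by positivity), ← mul_assoc, ← ENNReal.ofReal_mul (by positivity)]
          congr 2
          have h3 : T ^ (p - 1) * T = T ^ p := by
            rw [← Real.rpow_add_one hT0.ne']
            congr 1
            ring
          rw [h3, Real.mul_rpow hC₁.le (by positivity), Real.inv_rpow hT0.le, mul_assoc,
            inv_mul_cancel₀ (by positivity), mul_one]
  -- monotone convergence
  have e5 : ∀ x, (⨆ k : ℤ, A k x) ^ p = ⨆ K : ℕ, (⨆ k ∈ Finset.Icc (-(K : ℤ)) K, A k x) ^ p := by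
    intro x
    have h3 : (⨆ k : ℤ, A k x) = ⨆ K : ℕ, (⨆ k ∈ Finset.Icc (-(K : ℤ)) K, A k x) := by
      apply le_antisymm
      · apply iSup_le
        intro k
        refine le_iSup_of_le k.natAbs (le_iSup₂_of_le k ?_ le_rfl)
        rw [Finset.mem_Icc]
        omega
      · apply iSup_le
        intro K
        apply iSup₂_le
        intro k _
        exact le_iSup (fun k => A k x) k
    rw [h3]
    exact (ENNReal.orderIsoRpow p hp0).map_iSup _
  change ∫⁻ x, (⨆ k : ℤ, A k x) ^ p ≤ _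
  rw [lintegral_congr e5, lintegral_iSup]
  · apply iSup_le
    intro K
    refine (step3 K).trans (le_of_eq ?_)
    rw [hB, ← mul_assoc, ← ENNReal.ofReal_mul (by positivity), mul_assoc]
  · intro K
    apply Measurable.pow_const
    exact Measurable.biSup (↑(Finset.Icc (-(K : ℤ)) K) : Set ℤ) (Finset.countable_toSet _) (fun k _ => hAm k)
  · intro K L hKL x
    apply ENNReal.rpow_le_rpow _ hp0.le
    apply biSup_mono
    intro k hk
    have hk' : k ∈ Finset.Icc (-(K : ℤ)) K := hk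
    rw [Finset.mem_Icc] at hk'
    change k ∈ Finset.Icc (-(L : ℤ)) L
    rw [Finset.mem_Icc]
    omega

end Pool.Agent.Helper99.LM2
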