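import Pool.Agent.Helper68.LM2.Geo

set_option autoImplicit false

open MeasureTheory Set Filter Topology
open scoped ENNReal RealInnerProductSpace

namespace Pool.Agent.Helper99.LM2

open Pool.Agent.Helper68.LM Pool.Agent.Helper68.LM2

theorem pow_exp_bound (δ : ℝ) (hδ : 0 < δ) :
    ∃ K : ℝ, 0 < K ∧ ∀ e : ℕ, ((e : ℝ) + 1) ^ 2 ≤ K * ((2 : ℝ) ^ e) ^ δ := by
  set r : ℝ := (2 : ℝ) ^ (-δ) with hr
  have hr0 : 0 < r := Real.rpow_pos_of_pos (by norm_num) _
  have hr1 : r < 1 := Real.rpow_lt_one_of_one_lt_of_neg (by norm_num) (by linarith)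
  have h1 := tendsto_pow_const_mul_const_pow_of_abs_lt_one 2 (r := r) (by rw [abs_of_pos hr0]; exact hr1)
  obtain ⟨B, hB⟩ := h1.bddAbove_range
  refine ⟨(|B| + 1) / r, by positivity, fun e => ?_⟩
  have h2 : ((e + 1 : ℕ) : ℝ) ^ 2 * r ^ (e + 1) ≤ B := hB ⟨e + 1, rfl⟩
  push_cast at h2
  have h3 : ((2 : ℝ) ^ e) ^ δ = (r ^ e)⁻¹ := by
    rw [hr, ← Real.rpow_natCast ((2 : ℝ) ^ (-δ)) e, ← Real.rpow_natCast 2 e, ← Real.rpow_mul (by norm_num),
      ← Real.rpow_mul (by norm_num), ← Real.rpow_neg (by norm_num)]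
    congr 1
    ring
  rw [h3, div_mul_eq_mul_div, le_div_iff₀ hr0, ← div_eq_mul_inv, le_div_iff₀ (by positivity)]
  calc ((e : ℝ) + 1) ^ 2 * r * r ^ e = ((e : ℝ) + 1) ^ 2 * r ^ (e + 1) := by ring
    _ ≤ B := h2
    _ ≤ |B| + 1 := by linarith [le_abs_self B]

theorem abel_bound (p β : ℝ) (hp : 1 < p) (hβ0 : 0 < β) (hβ : β < 1 / p) (τ : ℕ → ℝ) (hanti : StrictAnti τ)
    (hpos : ∀ n, 0 < τ n) (hs : Summable (fun n => τ n ^ p)) :
    Summable (fun n : ℕ => (τ n - τ (n + 1)) * ((n : ℝ) + 1) ^ β) := by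
  have hp0 : 0 < p := by linarith
  have hβ1 : β < 1 := hβ.trans (by rw [div_lt_one hp0]; exact hp)
  set S : ℝ := ∑' n, τ n ^ p with hS
  have hS0 : 0 ≤ S := tsum_nonneg (fun n => (Real.rpow_pos_of_pos (hpos n) p).le)
  have hτ : ∀ n : ℕ, τ n ≤ S ^ (1 / p) * ((n : ℝ) + 1) ^ (-(1 / p)) := by
    intro n
    have h1 : ((n : ℝ) + 1) * τ n ^ p ≤ S := by
      calc ((n : ℝ) + 1) * τ n ^ p = ∑ j ∈ Finset.range (n + 1), τ n ^ p := by
            rw [Finset.sum_const, Finset.card_range, nsmul_eq_mul]; push_cast; ring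
        _ ≤ ∑ j ∈ Finset.range (n + 1), τ j ^ p := by
            apply Finset.sum_le_sum
            intro j hj
            apply Real.rpow_le_rpow (hpos n).le _ hp0.le
            exact hanti.antitone (by rw [Finset.mem_range] at hj; omega)
        _ ≤ S := hs.sum_le_tsum _ (fun j _ => (Real.rpow_pos_of_pos (hpos j) p).le)
    have h2 : τ n ^ p ≤ S * ((n : ℝ) + 1)⁻¹ := by
      rw [← div_eq_mul_inv, le_div_iff₀ (by positivity)]
      linarith
    calc τ n = (τ n ^ p) ^ (1 / p) := by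
          rw [← Real.rpow_mul (hpos n).le, mul_one_div_cancel hp0.ne', Real.rpow_one]
      _ ≤ (S * ((n : ℝ) + 1)⁻¹) ^ (1 / p) :=
          Real.rpow_le_rpow (Real.rpow_pos_of_pos (hpos n) p).le h2 (by positivity)
      _ = S ^ (1 / p) * ((n : ℝ) + 1) ^ (-(1 / p)) := by
          rw [Real.mul_rpow hS0 (by positivity), Real.inv_rpow (by positivity), Real.rpow_neg (by positivity)]
  have hdiff : ∀ n : ℕ, ((n : ℝ) + 1) ^ β - (n : ℝ) ^ β ≤ ((n : ℝ) + 1) ^ (β - 1) := by
    intro n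
    have h1 : (n : ℝ) / (n + 1) ≤ ((n : ℝ) / (n + 1)) ^ β := by
      rcases Nat.eq_zero_or_pos n with h0 | h0
      · subst h0
        simp [Real.zero_rpow hβ0.ne']
      · have : 0 < (n : ℝ) := by exact_mod_cast h0
        calc (n : ℝ) / (n + 1) = ((n : ℝ) / (n + 1)) ^ (1 : ℝ) := (Real.rpow_one _).symm
          _ ≤ ((n : ℝ) / (n + 1)) ^ β := Real.rpow_le_rpow_of_exponent_ge (by positivity)
            (by rw [div_le_one (by positivity)]; linarith) hβ1.le
    rw [Real.div_rpow (by positivity) (by positivity), le_div_iff₀ (by positivity)] at h1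
    have h2 : ((n : ℝ) + 1) ^ (β - 1) = ((n : ℝ) + 1) ^ β / (n + 1) := by
      rw [Real.rpow_sub (by positivity), Real.rpow_one]
    rw [h2]
    have h3 : (n : ℝ) / (n + 1) * ((n : ℝ) + 1) ^ β = ((n : ℝ) + 1) ^ β - ((n : ℝ) + 1) ^ β / (n + 1) := by
      field_simp
      ring
    rw [h3] at h1
    linarith
  have habel : ∀ N : ℕ, ∑ n ∈ Finset.range N, (τ n - τ (n + 1)) * ((n : ℝ) + 1) ^ β + τ N * (N : ℝ) ^ β =
      ∑ n ∈ Finset.range N, τ n * (((n : ℝ) + 1) ^ β - (n : ℝ) ^ β) := by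
    intro N
    induction N with
    | zero => simp [Real.zero_rpow hβ0.ne']
    | succ N ih =>
      rw [Finset.sum_range_succ, Finset.sum_range_succ, ← ih]
      push_cast
      ring
  have hsum2 : Summable (fun n : ℕ => S ^ (1 / p) * ((n : ℝ) + 1) ^ (β - 1 - 1 / p)) := by
    apply Summable.mul_left
    have h1 : Summable (fun n : ℕ => ((n : ℝ)) ^ (β - 1 - 1 / p)) :=
      Real.summable_nat_rpow.2 (by linarith)
    have h2 := (summable_nat_add_iff 1).2 h1
    simpa using h2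
  refine summable_of_sum_range_le (c := ∑' n : ℕ, S ^ (1 / p) * ((n : ℝ) + 1) ^ (β - 1 - 1 / p)) ?_ ?_
  · intro n
    have := hanti (Nat.lt_succ_self n)
    have h2 : 0 ≤ τ n - τ (n + 1) := by
      have : τ (n + 1) < τ n := this
      linarith
    positivity
  · intro N
    have h1 := habel N
    have h2 : 0 ≤ τ N * (N : ℝ) ^ β := mul_nonneg (hpos N).le (by positivity)
    have h3 : ∑ n ∈ Finset.range N, τ n * (((n : ℝ) + 1) ^ β - (n : ℝ) ^ β) ≤
        ∑ n ∈ Finset.range N, S ^ (1 / p) * ((n : ℝ) + 1) ^ (β - 1 - 1 / p) := by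
      apply Finset.sum_le_sum
      intro n _
      calc τ n * (((n : ℝ) + 1) ^ β - (n : ℝ) ^ β) ≤ τ n * ((n : ℝ) + 1) ^ (β - 1) :=
            mul_le_mul_of_nonneg_left (hdiff n) (hpos n).le
        _ ≤ (S ^ (1 / p) * ((n : ℝ) + 1) ^ (-(1 / p))) * ((n : ℝ) + 1) ^ (β - 1) :=
            mul_le_mul_of_nonneg_right (hτ n) (by positivity)
        _ = S ^ (1 / p) * ((n : ℝ) + 1) ^ (β - 1 - 1 / p) := by
            rw [mul_assoc, ← Real.rpow_add (by positivity)]
            congr 2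
            ring
    have h4 := hsum2.sum_le_tsum (Finset.range N) (fun n _ => by positivity)
    linarith

theorem hSUMT : StSUMT := by
  intro p α hp hα0 hα τ m₀ hseq _ hs C e hC he
  obtain ⟨hanti, hpos, hτ0, -⟩ := hseq
  have hp0 : 0 < p := by linarith
  have h1p : 1 / p < 1 := by rw [div_lt_one hp0]; exact hp
  set β : ℝ := (α + 1 / p) / 2 with hβdef
  have hβ0 : 0 < β := by have : 0 < 1 / p := by positivity
                         rw [hβdef]; linarith
  have hβ : β < 1 / p := by rw [hβdef]; linarith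
  have hαβ : α < β := by rw [hβdef]; linarith
  set δ : ℝ := (β - α) / (2 * (1 + β)) with hδdef
  have hδ0 : 0 < δ := div_pos (by linarith) (by linarith)
  have hδ1 : δ < 1 / 2 := by
    rw [hδdef, div_lt_iff₀ (by linarith)]
    linarith
  have hδ2 : δ * (2 * (1 + β)) = β - α := by
    rw [hδdef]; exact div_mul_cancel₀ _ (by positivity)
  set γ : ℝ := (β * (1 - δ) - α) / δ with hγdef
  have hγ : 1 < γ := by
    rw [hγdef, lt_div_iff₀ hδ0]
    nlinarith
  have hγδ : γ * δ = β * (1 - δ) - α := by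
    rw [hγdef]; exact div_mul_cancel₀ _ hδ0.ne'
  obtain ⟨K, hK0, hK⟩ := pow_exp_bound (δ / 2) (by positivity)
  have hlam : ∀ n, 0 < τ n - τ (n + 1) := fun n => by
    have : τ (n + 1) < τ n := hanti (Nat.lt_succ_self n)
    linarith
  have hA := abel_bound p β hp hβ0 hβ τ hanti hpos hs
  have hB : Summable (fun n : ℕ => ((n : ℝ) + 1) ^ (-γ)) := by
    have h1 : Summable (fun n : ℕ => ((n : ℝ)) ^ (-γ)) := Real.summable_nat_rpow.2 (by linarith)
    have h2 := (summable_nat_add_iff 1).2 h1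
    simpa using h2
  have hAB := (hA.add hB).mul_left (((m₀ : ℝ) + 1) * (K * C ^ (δ / 2)))
  refine Summable.of_nonneg_of_le (fun n => ?_) (fun n => ?_) hAB
  · have := (hlam n).le
    positivity
  · have hl := hlam n
    set lam : ℝ := τ n - τ (n + 1) with hlamdef
    have e1 : ((m₀ : ℝ) + n + e n + 1) ^ α ≤ ((m₀ : ℝ) + 1) * (((e n : ℝ) + 1) * ((n : ℝ) + 1) ^ α) := by
      have g1 : ∀ x : ℝ, 1 ≤ x → x ^ α ≤ x := fun x hx => by
        calc x ^ α ≤ x ^ (1 : ℝ) := Real.rpow_le_rpow_of_exponent_le hx (by linarith)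
          _ = x := Real.rpow_one x
      have hm : (0 : ℝ) ≤ m₀ := by positivity
      have hn : (0 : ℝ) ≤ n := by positivity
      have hen : (0 : ℝ) ≤ e n := by positivity
      calc ((m₀ : ℝ) + n + e n + 1) ^ α ≤ (((m₀ : ℝ) + 1) * (((e n : ℝ) + 1) * ((n : ℝ) + 1))) ^ α := by
            apply Real.rpow_le_rpow (by positivity) _ hα0
            nlinarith [mul_nonneg hm hn, mul_nonneg hm hen, mul_nonneg hn hen, mul_nonneg hm (mul_nonneg hen hn)]
        _ = ((m₀ : ℝ) + 1) ^ α * (((e n : ℝ) + 1) ^ α * ((n : ℝ) + 1) ^ α) := by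
            rw [Real.mul_rpow (by positivity) (by positivity), Real.mul_rpow (by positivity) (by positivity)]
        _ ≤ _ := by
            apply mul_le_mul (g1 _ (by linarith)) _ (by positivity) (by positivity)
            exact mul_le_mul_of_nonneg_right (g1 _ (by linarith)) (by positivity)
    have e2 : ((e n : ℝ) + 1) ^ 2 ≤ K * C ^ (δ / 2) * lam ^ (-δ) := by
      calc ((e n : ℝ) + 1) ^ 2 ≤ K * ((2 : ℝ) ^ e n) ^ (δ / 2) := hK (e n)
        _ ≤ K * (C / lam ^ 2) ^ (δ / 2) := by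
            apply mul_le_mul_of_nonneg_left _ hK0.le
            exact Real.rpow_le_rpow (by positivity) (he n) (by positivity)
        _ = K * C ^ (δ / 2) * lam ^ (-δ) := by
            rw [Real.div_rpow (by linarith) (by positivity), ← Real.rpow_natCast lam 2, ← Real.rpow_mul hl.le,
              Real.rpow_neg hl.le]
            have : ((2 : ℕ) : ℝ) * (δ / 2) = δ := by push_cast; ring
            rw [this]
            field_simp
    have e3 : lam * lam ^ (-δ) * ((n : ℝ) + 1) ^ α ≤ lam * ((n : ℝ) + 1) ^ β + ((n : ℝ) + 1) ^ (-γ) := by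
      have hx : 0 ≤ lam * ((n : ℝ) + 1) ^ β := by positivity
      have hy : 0 ≤ ((n : ℝ) + 1) ^ (-γ) := by positivity
      have g := Real.geom_mean_le_arith_mean2_weighted (w₁ := 1 - δ) (w₂ := δ) (by linarith) hδ0.le hx hy (by ring)
      have g2 : (lam * ((n : ℝ) + 1) ^ β) ^ (1 - δ) * (((n : ℝ) + 1) ^ (-γ)) ^ δ =
          lam * lam ^ (-δ) * ((n : ℝ) + 1) ^ α := by
        rw [Real.mul_rpow hl.le (by positivity), ← Real.rpow_mul (by positivity), ← Real.rpow_mul (by positivity),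
          mul_assoc, ← Real.rpow_add (by positivity)]
        have h1 : β * (1 - δ) + -γ * δ = α := by
          rw [neg_mul, hγδ]; ring
        have h2 : lam ^ (1 - δ) = lam * lam ^ (-δ) := by
          rw [sub_eq_add_neg, Real.rpow_add hl, Real.rpow_one]
        rw [h1, h2]
      rw [g2] at g
      nlinarith [mul_nonneg hδ0.le hx, mul_nonneg hδ0.le hy]
    calc lam * ((e n : ℝ) + 1) * ((m₀ : ℝ) + n + e n + 1) ^ α
        ≤ lam * ((e n : ℝ) + 1) * (((m₀ : ℝ) + 1) * (((e n : ℝ) + 1) * ((n : ℝ) + 1) ^ α)) :=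
          mul_le_mul_of_nonneg_left e1 (by positivity)
      _ = ((m₀ : ℝ) + 1) * (lam * ((n : ℝ) + 1) ^ α) * ((e n : ℝ) + 1) ^ 2 := by ring
      _ ≤ ((m₀ : ℝ) + 1) * (lam * ((n : ℝ) + 1) ^ α) * (K * C ^ (δ / 2) * lam ^ (-δ)) :=
          mul_le_mul_of_nonneg_left e2 (by positivity)
      _ = ((m₀ : ℝ) + 1) * (K * C ^ (δ / 2)) * (lam * lam ^ (-δ) * ((n : ℝ) + 1) ^ α) := by ring
      _ ≤ ((m₀ : ℝ) + 1) * (K * C ^ (δ / 2)) * (lam * ((n : ℝ) + 1) ^ β + ((n : ℝ) + 1) ^ (-γ)) :=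
          mul_le_mul_of_nonneg_left e3 (by positivity)

end Pool.Agent.Helper99.LM2
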